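import Pool.Agent.MOMQ.Main

/-!
MP_2b7f8f_an, Q2: every uniquely ergodic model of a time map of a cocompact horocycle flow is Möbius
disjoint.
-/

set_option autoImplicit false

namespace Pool.Agent.Results.MP_2b7f8f_an.UniquelyErgodicModels

open MeasureTheory Filter Topology

/-- The group `SL₂(ℝ)`. A lattice of `PSL₂(ℝ)` is given by its preimage `Γ` in `SL₂(ℝ)`, which
contains `-1`. -/
abbrev G := Matrix.SpecialLinearGroup (Fin 2) ℝ

/-- `m` is the Haar probability measure of `G ⧸ Γ`: the probability measure invariant under the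
action of all elements of `G`. -/
def IsHaarProbability (Γ : Subgroup G) [MeasurableSpace (G ⧸ Γ)] (m : Measure (G ⧸ Γ)) : Prop :=
  IsProbabilityMeasure m ∧ ∀ g : G, m.map (fun x => g • x) = m

/-- `(Y, S)` is uniquely ergodic, and `ν` is its only invariant probability measure. -/
def IsUniquelyErgodic {Y : Type} [MeasurableSpace Y] (S : Y → Y) (ν : Measure Y) : Prop :=
  IsProbabilityMeasure ν ∧ ν.map S = ν ∧
    ∀ ρ : Measure Y, IsProbabilityMeasure ρ → ρ.map S = ρ → ρ = ν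

/-- The measure preserving systems `(Y, ν, S)` and `(X, m, T)` are isomorphic (mod null sets). -/
def IsIsomorphic {X Y : Type} [MeasurableSpace X] [MeasurableSpace Y] (S : Y → Y) (ν : Measure Y)
    (T : X → X) (m : Measure X) : Prop :=
  ∃ (φ : Y → X) (ψ : X → Y), Measurable φ ∧ Measurable ψ ∧ ν.map φ = m ∧ m.map ψ = ν ∧
    (∀ᵐ y ∂ν, ψ (φ y) = y) ∧ (∀ᵐ x ∂m, φ (ψ x) = x) ∧ ∀ᵐ y ∂ν, φ (S y) = T (φ y)

/-- `(Y, S)` is Möbius disjoint: for all continuous `f` and all `y` the averages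
`1/N ∑_{1 ≤ n ≤ N} f(Sⁿ y) μ(n)` tend to `0`. -/
def IsMobiusDisjoint {Y : Type} [TopologicalSpace Y] (S : Y → Y) : Prop :=
  ∀ f : Y → ℂ, Continuous f → ∀ y : Y,
    Tendsto (fun N : ℕ => (1 / (N : ℂ)) * ∑ n ∈ Finset.Icc 1 N, f (S^[n] y) *
      ((ArithmeticFunction.moebius n : ℤ) : ℂ)) atTop (𝓝 0)

/-- Every uniquely ergodic model `(Y, S)` of the time `t₀` map of the horocycle flow of a compact
quotient of `PSL₂(ℝ)` is Möbius disjoint. -/
theorem result (Γ : Subgroup G) (hΓ : DiscreteTopology Γ)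
    (hneg : ∀ z : G, (z : Matrix (Fin 2) (Fin 2) ℝ) = -1 → z ∈ Γ) (hcpt : CompactSpace (G ⧸ Γ))
    [MeasurableSpace (G ⧸ Γ)] [BorelSpace (G ⧸ Γ)] (m : Measure (G ⧸ Γ))
    (hm : IsHaarProbability Γ m) (t₀ : ℝ) (ht : t₀ ≠ 0) (u : G)
    (hu : (u : Matrix (Fin 2) (Fin 2) ℝ) = !![1, t₀; 0, 1])
    (Y : Type) [MetricSpace Y] [CompactSpace Y] [MeasurableSpace Y] [BorelSpace Y]
    (S : Y ≃ₜ Y) (ν : Measure Y) (hν : IsUniquelyErgodic S ν)
    (hiso : IsIsomorphic S ν (fun x : G ⧸ Γ => u • x) m) :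
    IsMobiusDisjoint S := by
  intro f hf y
  obtain ⟨φ, ψ, hφ, hψ, h1, -, h3, -, h5⟩ := hiso
  have := hm.1
  have := hν.1
  obtain ⟨M, -, hM⟩ := Pool.Agent.MOMQ.exists_bd hf
  exact Pool.Agent.MOMQ.disjoint_of_momo hM
    (Pool.Agent.MOMQ.momo_models Γ hΓ hneg hcpt m t₀ ht u hu S.continuous hν.2.1 hν.2.2 hφ hψ h1 h3
      h5 hf) y

end Pool.Agent.Results.MP_2b7f8f_an.UniquelyErgodicModels
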